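import Mathlib

set_option linter.unusedSectionVars false

namespace CVXP

open Matrix

variable {A B : Type*} [Fintype A] [Fintype B] [DecidableEq A] [DecidableEq B]

/-- `X` is a contraction of `ℝ^B` to `ℝ^A`. -/
def Con (X : Matrix A B ℝ) : Prop := ∀ v : B → ℝ, (X *ᵥ v) ⬝ᵥ (X *ᵥ v) ≤ v ⬝ᵥ v

lemma dot_self_nonneg (v : B → ℝ) : 0 ≤ v ⬝ᵥ v := by
  unfold dotProduct
  exact Finset.sum_nonneg fun i _ => mul_self_nonneg _

lemma dot_self_pos {v : B → ℝ} (h : v ≠ 0) : 0 < v ⬝ᵥ v := by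
  rcases (dot_self_nonneg v).lt_or_eq with h1 | h1
  · exact h1
  · exact absurd (dotProduct_self_eq_zero.mp h1.symm) h

lemma quad_id (X : Matrix A B ℝ) (v : B → ℝ) :
    v ⬝ᵥ ((1 - Xᵀ * X) *ᵥ v) = v ⬝ᵥ v - (X *ᵥ v) ⬝ᵥ (X *ᵥ v) := by
  rw [sub_mulVec, one_mulVec, dotProduct_sub, ← mulVec_mulVec, dotProduct_mulVec v Xᵀ,
    vecMul_transpose]

lemma psd_gram {X : Matrix A B ℝ} (hX : Con X) : (1 - Xᵀ * X).PosSemidef := by
  refine Matrix.PosSemidef.of_dotProduct_mulVec_nonneg ?_ ?_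
  · rw [Matrix.IsHermitian, conjTranspose_eq_transpose_of_trivial, transpose_sub, transpose_one,
      transpose_mul, transpose_transpose]
  · intro v
    rw [star_trivial, quad_id]
    linarith [hX v]

/-- For a contraction, isometric vectors are the kernel of `1 - XᵀX`. -/
lemma mem_ker_iff {X : Matrix A B ℝ} (hX : Con X) (v : B → ℝ) :
    (1 - Xᵀ * X) *ᵥ v = 0 ↔ (X *ᵥ v) ⬝ᵥ (X *ᵥ v) = v ⬝ᵥ v := by
  have h := (psd_gram hX).dotProduct_mulVec_zero_iff v
  rw [star_trivial, quad_id] at h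
  rw [← h, sub_eq_zero]
  exact eq_comm

lemma cont_dot {T : Type*} [TopologicalSpace T] {f g : T → (A → ℝ)} (hf : Continuous f)
    (hg : Continuous g) : Continuous fun t => f t ⬝ᵥ g t := hf.dotProduct hg

lemma isCompact_sphere : IsCompact {v : B → ℝ | v ⬝ᵥ v = 1} := by
  have h1 : IsCompact (Set.pi Set.univ fun _ : B => Set.Icc (-1 : ℝ) 1) :=
    isCompact_univ_pi fun _ => isCompact_Icc
  refine h1.of_isClosed_subset ?_ ?_
  · exact isClosed_eq (continuous_id.dotProduct continuous_id) continuous_const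
  · intro v hv i _
    have hv' : v ⬝ᵥ v = 1 := hv
    have h2 : v i * v i ≤ v ⬝ᵥ v := by
      unfold dotProduct
      exact Finset.single_le_sum (f := fun i => v i * v i) (fun i _ => mul_self_nonneg _)
        (Finset.mem_univ i)
    rw [hv'] at h2
    have : |v i| ≤ 1 := by
      rw [← sq_le_one_iff_abs_le_one]; nlinarith
    exact abs_le.mp this

/-- A small step in a direction which is negative on the isometric vectors stays a contraction. -/
lemma step {X D : Matrix A B ℝ} (hX : Con X)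
    (hD : ∀ v : B → ℝ, (X *ᵥ v) ⬝ᵥ (X *ᵥ v) = v ⬝ᵥ v → v ≠ 0 → (X *ᵥ v) ⬝ᵥ (D *ᵥ v) < 0) :
    ∃ ε : ℝ, 0 < ε ∧ Con (X + ε • D) := by
  classical
  rcases Set.eq_empty_or_nonempty {v : B → ℝ | v ⬝ᵥ v = 1} with hE | hne
  · refine ⟨1, one_pos, fun v => ?_⟩
    by_cases hv : v = 0
    · subst hv; simp
    · exfalso
      have hpos := dot_self_pos hv
      have : ((Real.sqrt (v ⬝ᵥ v))⁻¹ • v) ∈ {v : B → ℝ | v ⬝ᵥ v = 1} := by
        show ((Real.sqrt (v ⬝ᵥ v))⁻¹ • v) ⬝ᵥ ((Real.sqrt (v ⬝ᵥ v))⁻¹ • v) = 1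
        rw [smul_dotProduct, dotProduct_smul, smul_eq_mul, smul_eq_mul, ← mul_assoc, ← mul_inv,
          Real.mul_self_sqrt hpos.le, inv_mul_cancel₀ hpos.ne']
      rw [hE] at this
      exact this
  · let m : (B → ℝ) → ℝ := fun v =>
      max (1 - (X *ᵥ v) ⬝ᵥ (X *ᵥ v)) (-((X *ᵥ v) ⬝ᵥ (D *ᵥ v)))
    let d2 : (B → ℝ) → ℝ := fun v => (D *ᵥ v) ⬝ᵥ (D *ᵥ v)
    let d1 : (B → ℝ) → ℝ := fun v => |(X *ᵥ v) ⬝ᵥ (D *ᵥ v)|
    have cX : Continuous fun v : B → ℝ => X *ᵥ v := continuous_const.matrix_mulVec continuous_id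
    have cD : Continuous fun v : B → ℝ => D *ᵥ v := continuous_const.matrix_mulVec continuous_id
    have cm : Continuous m :=
      (continuous_const.sub (cX.dotProduct cX)).max (cX.dotProduct cD).neg
    have cd2 : Continuous d2 := cD.dotProduct cD
    have cd1 : Continuous d1 := (cX.dotProduct cD).abs
    obtain ⟨a, ha, hma⟩ := (isCompact_sphere (B := B)).exists_isMinOn hne cm.continuousOn
    obtain ⟨b, hb, hmb⟩ := (isCompact_sphere (B := B)).exists_isMaxOn hne cd2.continuousOn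
    obtain ⟨c, hc, hmc⟩ := (isCompact_sphere (B := B)).exists_isMaxOn hne cd1.continuousOn
    have ha1 : a ⬝ᵥ a = 1 := ha
    have hδ : 0 < m a := by
      show 0 < max (1 - (X *ᵥ a) ⬝ᵥ (X *ᵥ a)) (-((X *ᵥ a) ⬝ᵥ (D *ᵥ a)))
      have h1 := hX a
      rw [ha1] at h1
      rcases h1.lt_or_eq with h2 | h2
      · exact lt_max_of_lt_left (by linarith)
      · refine lt_max_of_lt_right ?_
        have := hD a (by rw [h2, ha1]) (by rintro rfl; simp at ha1)
        linarith
    set δ := m a with hδd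
    set P := d2 b with hPd
    set R := d1 c with hRd
    have hP0 : 0 ≤ P := dot_self_nonneg _
    have hR0 : 0 ≤ R := abs_nonneg _
    -- step size
    let ε : ℝ := min 1 (δ / (2 * R + P + 1))
    have hden : 0 < 2 * R + P + 1 := by linarith
    have hε0 : 0 < ε := lt_min one_pos (div_pos hδ hden)
    have hε1 : ε ≤ 1 := min_le_left _ _
    have hε2 : ε * (2 * R + P + 1) ≤ δ := by
      have : ε ≤ δ / (2 * R + P + 1) := min_le_right _ _
      rwa [le_div_iff₀ hden] at this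
    refine ⟨ε, hε0, ?_⟩
    have key : ∀ v : B → ℝ, v ⬝ᵥ v = 1 →
        ((X + ε • D) *ᵥ v) ⬝ᵥ ((X + ε • D) *ᵥ v) ≤ 1 := by
      intro v hv
      have e1 : ((X + ε • D) *ᵥ v) ⬝ᵥ ((X + ε • D) *ᵥ v)
          = (X *ᵥ v) ⬝ᵥ (X *ᵥ v) + 2 * ε * ((X *ᵥ v) ⬝ᵥ (D *ᵥ v))
            + ε * ε * ((D *ᵥ v) ⬝ᵥ (D *ᵥ v)) := by
        rw [add_mulVec, smul_mulVec, add_dotProduct, dotProduct_add, dotProduct_add,
          smul_dotProduct, smul_dotProduct, dotProduct_smul, dotProduct_smul,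
          dotProduct_comm (D *ᵥ v) (X *ᵥ v)]
        simp only [smul_eq_mul]
        ring
      rw [e1]
      have hm : δ ≤ m v := hma hv
      have hp : (D *ᵥ v) ⬝ᵥ (D *ᵥ v) ≤ P := hmb hv
      have hr : |(X *ᵥ v) ⬝ᵥ (D *ᵥ v)| ≤ R := hmc hv
      have hr2 := le_abs_self ((X *ᵥ v) ⬝ᵥ (D *ᵥ v))
      have h0 := hX v
      rw [hv] at h0
      have hp0 : 0 ≤ (D *ᵥ v) ⬝ᵥ (D *ᵥ v) := dot_self_nonneg _
      set x := (X *ᵥ v) ⬝ᵥ (X *ᵥ v)
      set y := (X *ᵥ v) ⬝ᵥ (D *ᵥ v)
      set z := (D *ᵥ v) ⬝ᵥ (D *ᵥ v)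
      have h5 : ε * ε * z ≤ ε * P := by
        have : ε * z ≤ 1 * P := mul_le_mul hε1 hp hp0 zero_le_one
        nlinarith
      rcases le_max_iff.mp hm with h | h
      · have h6 : ε * y ≤ ε * R := mul_le_mul_of_nonneg_left (hr2.trans hr) hε0.le
        nlinarith
      · -- - y ≥ δ
        have h6 : ε * y ≤ ε * (-δ) := mul_le_mul_of_nonneg_left (by linarith) hε0.le
        have h7 : ε * z ≤ 2 * δ := by
          have : ε * z ≤ ε * P := mul_le_mul_of_nonneg_left hp hε0.le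
          nlinarith
        have h8 : ε * (ε * z) ≤ ε * (2 * δ) := mul_le_mul_of_nonneg_left h7 hε0.le
        nlinarith
    intro v
    by_cases hv : v = 0
    · subst hv; simp
    · have hpos := dot_self_pos hv
      set s := Real.sqrt (v ⬝ᵥ v) with hs
      have hs0 : 0 < s := Real.sqrt_pos.mpr hpos
      have hss : s * s = v ⬝ᵥ v := Real.mul_self_sqrt hpos.le
      have h1 := key (s⁻¹ • v) (by
        rw [smul_dotProduct, dotProduct_smul, smul_eq_mul, smul_eq_mul, ← mul_assoc, ← mul_inv,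
          hss, inv_mul_cancel₀ hpos.ne'])
      rw [mulVec_smul, smul_dotProduct, dotProduct_smul, smul_eq_mul, smul_eq_mul, ← mul_assoc,
        ← mul_inv, hss, inv_mul_le_iff₀ hpos, mul_one] at h1
      exact h1

/-- The directions which are negative on the isometric vectors form an open set. -/
lemma isOpen_dirs {X : Matrix A B ℝ} :
    IsOpen {D : Matrix A B ℝ | ∀ v : B → ℝ, (X *ᵥ v) ⬝ᵥ (X *ᵥ v) = v ⬝ᵥ v → v ≠ 0 →
      (X *ᵥ v) ⬝ᵥ (D *ᵥ v) < 0} := by
  let K : Set (B → ℝ) := {v | v ⬝ᵥ v = 1} ∩ {v | (X *ᵥ v) ⬝ᵥ (X *ᵥ v) = v ⬝ᵥ v}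
  have cX : Continuous fun v : B → ℝ => X *ᵥ v := continuous_const.matrix_mulVec continuous_id
  have hK : IsCompact K := isCompact_sphere.inter_right
    (isClosed_eq (cX.dotProduct cX) (continuous_id.dotProduct continuous_id))
  have : CompactSpace K := isCompact_iff_compactSpace.mp hK
  have hc : IsClosed {p : Matrix A B ℝ × K | 0 ≤ (X *ᵥ p.2.1) ⬝ᵥ (p.1 *ᵥ p.2.1)} := by
    refine isClosed_le continuous_const ?_
    have c1 : Continuous fun p : Matrix A B ℝ × K => p.2.1 :=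
      continuous_subtype_val.comp continuous_snd
    exact (cX.comp c1).dotProduct (continuous_fst.matrix_mulVec c1)
  have h2 := isClosedMap_fst_of_compactSpace _ hc
  have h3 : {D : Matrix A B ℝ | ∀ v : B → ℝ, (X *ᵥ v) ⬝ᵥ (X *ᵥ v) = v ⬝ᵥ v → v ≠ 0 →
      (X *ᵥ v) ⬝ᵥ (D *ᵥ v) < 0} =
      (Prod.fst '' {p : Matrix A B ℝ × K | 0 ≤ (X *ᵥ p.2.1) ⬝ᵥ (p.1 *ᵥ p.2.1)})ᶜ := by
    ext D
    simp only [Set.mem_ofPred_eq, Set.mem_compl_iff, Set.mem_image, Prod.exists, not_exists,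
      not_and]
    constructor
    · rintro h D' ⟨v, hv1, hv2⟩ h4 rfl
      have hv1' : v ⬝ᵥ v = 1 := hv1
      have := h v hv2 (by rintro rfl; simp at hv1')
      simp only at h4
      linarith
    · intro h v hv hv0
      have hpos := dot_self_pos hv0
      set s := Real.sqrt (v ⬝ᵥ v) with hs
      have hs0 : 0 < s := Real.sqrt_pos.mpr hpos
      have hss : s * s = v ⬝ᵥ v := Real.mul_self_sqrt hpos.le
      have m1 : (s⁻¹ • v) ⬝ᵥ (s⁻¹ • v) = 1 := by
        rw [smul_dotProduct, dotProduct_smul, smul_eq_mul, smul_eq_mul, ← mul_assoc, ← mul_inv,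
          hss, inv_mul_cancel₀ hpos.ne']
      have m2 : (X *ᵥ (s⁻¹ • v)) ⬝ᵥ (X *ᵥ (s⁻¹ • v)) = (s⁻¹ • v) ⬝ᵥ (s⁻¹ • v) := by
        rw [mulVec_smul, smul_dotProduct, dotProduct_smul, smul_dotProduct, dotProduct_smul, hv]
      by_contra hcon
      push Not at hcon
      refine h D ⟨s⁻¹ • v, m1, m2⟩ ?_ rfl
      show 0 ≤ (X *ᵥ (s⁻¹ • v)) ⬝ᵥ (D *ᵥ (s⁻¹ • v))
      rw [mulVec_smul, mulVec_smul, smul_dotProduct, dotProduct_smul, smul_eq_mul, smul_eq_mul]
      have : 0 < s⁻¹ := inv_pos.mpr hs0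
      positivity
  rw [h3]
  exact h2.isOpen_compl

lemma pair_vecMulVec (F : Matrix A B ℝ) (y : A → ℝ) (u : B → ℝ) :
    ∑ i, ∑ j, F i j * (y i * u j) = y ⬝ᵥ (F *ᵥ u) := by
  unfold dotProduct mulVec dotProduct
  refine Finset.sum_congr rfl fun i _ => ?_
  rw [Finset.mul_sum]
  exact Finset.sum_congr rfl fun j _ => by ring

/-- The linear functional `D ↦ ∑_{H} w D`. -/
noncomputable def pr (W : Matrix A B ℝ) (D : Matrix A B ℝ) : ℝ := ∑ i, ∑ j, W i j * D i j

lemma pr_add (W D E : Matrix A B ℝ) : pr W (D + E) = pr W D + pr W E := by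
  unfold pr
  simp only [Matrix.add_apply, mul_add, Finset.sum_add_distrib]

lemma pr_smul (W D : Matrix A B ℝ) (c : ℝ) : pr W (c • D) = c * pr W D := by
  unfold pr
  simp only [Matrix.smul_apply, smul_eq_mul, Finset.mul_sum]
  exact Finset.sum_congr rfl fun i _ => Finset.sum_congr rfl fun j _ => by ring

lemma pr_self_pos {W : Matrix A B ℝ} (h : W ≠ 0) : 0 < pr W W := by
  unfold pr
  by_contra hcon
  push Not at hcon
  have h0 : ∀ i, 0 ≤ ∑ j, W i j * W i j := fun i =>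
    Finset.sum_nonneg fun j _ => mul_self_nonneg _
  have h1 : ∑ i, ∑ j, W i j * W i j = 0 := le_antisymm hcon (Finset.sum_nonneg fun i _ => h0 i)
  rw [Finset.sum_eq_zero_iff_of_nonneg fun i _ => h0 i] at h1
  apply h
  ext i j
  have h2 := h1 i (Finset.mem_univ i)
  rw [Finset.sum_eq_zero_iff_of_nonneg fun j _ => mul_self_nonneg _] at h2
  exact mul_self_eq_zero.mp (h2 j (Finset.mem_univ j))

lemma pr_cont (W : Matrix A B ℝ) : Continuous (pr W) := by
  unfold pr
  refine continuous_finsetSum _ fun i _ => continuous_finsetSum _ fun j _ => ?_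
  exact continuous_const.mul (continuous_id.matrix_elem i j)

/-- The functional `f` in terms of its matrix of entries. -/
lemma functional_eq (f : Matrix A B ℝ →ₗ[ℝ] ℝ) (D : Matrix A B ℝ) :
    f D = pr (Matrix.of fun i j => f (Matrix.single i j 1)) D := by
  conv_lhs => rw [Matrix.matrix_eq_sum_single D]
  unfold pr
  rw [map_sum]
  refine Finset.sum_congr rfl fun i _ => ?_
  rw [map_sum]
  refine Finset.sum_congr rfl fun j _ => ?_
  have : Matrix.single i j (D i j) = D i j • Matrix.single i j (1 : ℝ) := by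
    rw [Matrix.smul_single, smul_eq_mul, mul_one]
  rw [this, map_smul, smul_eq_mul, Matrix.of_apply]
  ring

/-- Key step: a maximiser of `pr w` among contractions which agree off `H` has many isometric
directions. -/
lemma core (r : ℕ) (H : A → B → Prop) (w : Matrix A B ℝ) (hw0 : ∀ i j, ¬ H i j → w i j = 0)
    (hw : ∀ M : Matrix A B ℝ, (∀ i j, H i j → M i j = w i j) → r < M.rank)
    {X : Matrix A B ℝ} (hX : Con X)
    (hmax : ∀ Y : Matrix A B ℝ, Con Y → (∀ i j, ¬ H i j → Y i j = X i j) → pr w Y ≤ pr w X)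
    {D0 : Matrix A B ℝ} (hD0 : ∀ i j, ¬ H i j → D0 i j = 0)
    (hneg : ∀ v : B → ℝ, (X *ᵥ v) ⬝ᵥ (X *ᵥ v) = v ⬝ᵥ v → v ≠ 0 →
      (X *ᵥ v) ⬝ᵥ (D0 *ᵥ v) < 0) :
    r < Module.finrank ℝ (LinearMap.ker (1 - Xᵀ * X).mulVecLin) := by
  let C : Set (Matrix A B ℝ) := {D | ∀ v : B → ℝ, (X *ᵥ v) ⬝ᵥ (X *ᵥ v) = v ⬝ᵥ v → v ≠ 0 →
      (X *ᵥ v) ⬝ᵥ (D *ᵥ v) < 0}
  let T : Set (Matrix A B ℝ) := {D | (∀ i j, ¬ H i j → D i j = 0) ∧ 0 < pr w D}
  have hCo : IsOpen C := isOpen_dirs
  have hw1 : w ≠ 0 := by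
    rintro rfl
    have := hw 0 (fun i j _ => rfl)
    simp at this
  have hww : 0 < pr w w := pr_self_pos hw1
  have hCs : ∀ D ∈ C, ∀ s : ℝ, 0 < s → s • D ∈ C := by
    intro D hD s hs v hv hv0
    rw [smul_mulVec, dotProduct_smul, smul_eq_mul]
    exact mul_neg_of_pos_of_neg hs (hD v hv hv0)
  have hCa : ∀ D ∈ C, ∀ E ∈ C, D + E ∈ C := by
    intro D hD E hE v hv hv0
    rw [add_mulVec, dotProduct_add]
    exact add_neg (hD v hv hv0) (hE v hv hv0)
  have hCc : Convex ℝ C := by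
    intro D hD E hE a b ha hb hab
    rcases ha.eq_or_lt with rfl | ha'
    · have : b = 1 := by linarith
      subst this
      simpa using hE
    · rcases hb.eq_or_lt with rfl | hb'
      · have : a = 1 := by linarith
        subst this
        simpa using hD
      · exact hCa _ (hCs D hD a ha') _ (hCs E hE b hb')
  have hTs : ∀ D ∈ T, ∀ s : ℝ, 0 < s → s • D ∈ T := by
    intro D hD s hs
    refine ⟨fun i j h => ?_, ?_⟩
    · rw [Matrix.smul_apply, hD.1 i j h, smul_zero]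
    · rw [pr_smul]; exact mul_pos hs hD.2
  have hTa : ∀ D ∈ T, ∀ E ∈ T, D + E ∈ T := by
    intro D hD E hE
    refine ⟨fun i j h => ?_, ?_⟩
    · rw [Matrix.add_apply, hD.1 i j h, hE.1 i j h, add_zero]
    · rw [pr_add]; exact add_pos hD.2 hE.2
  have hTc : Convex ℝ T := by
    intro D hD E hE a b ha hb hab
    rcases ha.eq_or_lt with rfl | ha'
    · have : b = 1 := by linarith
      subst this
      simpa using hE
    · rcases hb.eq_or_lt with rfl | hb'
      · have : a = 1 := by linarith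
        subst this
        simpa using hD
      · exact hTa _ (hTs D hD a ha') _ (hTs E hE b hb')
  have hdisj : Disjoint C T := by
    rw [Set.disjoint_left]
    intro D hDC hDT
    obtain ⟨ε, hε, hcon⟩ := step hX hDC
    have h1 := hmax (X + ε • D) hcon (fun i j h => by
      rw [Matrix.add_apply, Matrix.smul_apply, hDT.1 i j h, smul_zero, add_zero])
    rw [pr_add, pr_smul] at h1
    have := mul_pos hε hDT.2
    linarith
  obtain ⟨f, u, hfC, hfT⟩ := geometric_hahn_banach_open hCc hCo hTc hdisj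
  have hwT : w ∈ T := ⟨hw0, hww⟩
  have hD0C : D0 ∈ C := hneg
  -- `u = 0`
  have hu0 : 0 ≤ u := by
    by_contra hcon
    push Not at hcon
    -- f (s D0) < u for all s > 0
    by_cases h : f D0 ≤ 0
    · rcases h.lt_or_eq with h | h
      · have h1 := hfC _ (hCs D0 hD0C (u / (2 * f D0)) (by
          apply div_pos_of_neg_of_neg hcon; linarith))
        rw [map_smul, smul_eq_mul] at h1
        have : u / (2 * f D0) * f D0 = u / 2 := by
          rw [div_mul_eq_mul_div, mul_comm 2 (f D0), ← div_div, mul_div_cancel_right₀ _ h.ne]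
        rw [this] at h1
        linarith
      · have h1 := hfC D0 hD0C
        linarith
    · have h1 := hfC D0 hD0C
      linarith
  have hfC' : ∀ D ∈ C, f D ≤ 0 := by
    intro D hD
    by_contra hcon
    push Not at hcon
    have h1 := hfC _ (hCs D hD ((u + 1) / f D) (by positivity))
    rw [map_smul, smul_eq_mul, div_mul_cancel₀ _ hcon.ne'] at h1
    linarith
  have hfT0 : ∀ D ∈ T, 0 ≤ f D := fun D hD => hu0.trans (hfT D hD)
  have hu : u = 0 := by
    refine le_antisymm ?_ hu0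
    by_contra hcon
    push Not at hcon
    have h1 := hfT _ (hTs w hwT (u / (2 * (f w + 1))) (by
      have := hfT0 w hwT
      positivity))
    rw [map_smul, smul_eq_mul] at h1
    have h2 := hfT0 w hwT
    have h3 : u / (2 * (f w + 1)) * f w ≤ u / 2 := by
      rw [div_mul_eq_mul_div, div_le_div_iff₀ (by positivity) (by norm_num)]
      nlinarith
    linarith
  subst hu
  -- `f` is proportional to `pr w` on matrices supported on `H`
  have hker : ∀ D : Matrix A B ℝ, (∀ i j, ¬ H i j → D i j = 0) → pr w D = 0 → 0 ≤ f D := by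
    intro D hD hpD
    by_contra hcon
    push Not at hcon
    -- D + s w
    have h1 := hfT0 w hwT
    have h2 := hfT0 (D + (-f D / (2 * (f w + 1))) • w) (by
      refine ⟨fun i j h => ?_, ?_⟩
      · rw [Matrix.add_apply, Matrix.smul_apply, hD i j h, hw0 i j h, smul_zero, add_zero]
      · rw [pr_add, pr_smul, hpD, zero_add]
        refine mul_pos ?_ hww
        have : 0 < -f D := by linarith
        positivity)
    rw [map_add, map_smul, smul_eq_mul] at h2
    have h3 : -f D / (2 * (f w + 1)) * f w ≤ -f D / 2 := by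
      rw [div_mul_eq_mul_div, div_le_div_iff₀ (by positivity) (by norm_num)]
      nlinarith
    linarith
  have hker0 : ∀ D : Matrix A B ℝ, (∀ i j, ¬ H i j → D i j = 0) → pr w D = 0 → f D = 0 := by
    intro D hD hpD
    refine le_antisymm ?_ (hker D hD hpD)
    have h1 := hker (-D) (fun i j h => by rw [Matrix.neg_apply, hD i j h, neg_zero]) (by
      have := pr_smul w D (-1)
      rw [neg_one_smul, hpD, mul_zero] at this
      exact this)
    rw [map_neg] at h1
    linarith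
  have hprop : ∀ D : Matrix A B ℝ, (∀ i j, ¬ H i j → D i j = 0) →
      f D = pr w D / pr w w * f w := by
    intro D hD
    have h1 := hker0 (D + (-(pr w D / pr w w)) • w) (fun i j h => by
      rw [Matrix.add_apply, Matrix.smul_apply, hD i j h, hw0 i j h, smul_zero, add_zero]) (by
      rw [pr_add, pr_smul, neg_mul, div_mul_cancel₀ _ hww.ne', add_neg_cancel])
    rw [map_add, map_smul, smul_eq_mul] at h1
    linarith
  have hfD0 : f D0 < 0 := hfC D0 hD0C
  have hfw : f w ≠ 0 := by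
    intro h
    have := hprop D0 hD0
    rw [h, mul_zero] at this
    linarith
  -- the matrix of `f`
  let F : Matrix A B ℝ := Matrix.of fun i j => f (Matrix.single i j 1)
  have hF : ∀ D, f D = pr F D := fun D => functional_eq (f : Matrix A B ℝ →ₗ[ℝ] ℝ) D
  have hFH : ∀ i j, H i j → F i j = (f w / pr w w) * w i j := by
    intro i j hij
    show f (Matrix.single i j 1) = _
    rw [hprop (Matrix.single i j 1) (fun i' j' h => by
      rw [Matrix.single_apply]
      rw [if_neg]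
      rintro ⟨rfl, rfl⟩
      exact h hij)]
    have : pr w (Matrix.single i j 1) = w i j := by
      unfold pr
      rw [Finset.sum_eq_single i, Finset.sum_eq_single j]
      · simp
      · intro b _ hb; rw [Matrix.single_apply, if_neg (by rintro ⟨_, rfl⟩; exact hb rfl), mul_zero]
      · intro h; exact absurd (Finset.mem_univ _) h
      · intro a _ ha
        refine Finset.sum_eq_zero fun b _ => ?_
        rw [Matrix.single_apply, if_neg (by rintro ⟨rfl, _⟩; exact ha rfl), mul_zero]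
      · intro h; exact absurd (Finset.mem_univ _) h
    rw [this]
    ring
  have hκ : f w / pr w w ≠ 0 := div_ne_zero hfw hww.ne'
  have hrank : r < F.rank := by
    have h1 := hw ((f w / pr w w)⁻¹ • F) (fun i j h => by
      rw [Matrix.smul_apply, hFH i j h, smul_eq_mul, inv_mul_cancel_left₀ hκ])
    refine h1.trans_le ?_
    have : (f w / pr w w)⁻¹ • F = F * ((f w / pr w w)⁻¹ • (1 : Matrix B B ℝ)) := by
      rw [Matrix.mul_smul, Matrix.mul_one]
    rw [this]
    exact Matrix.rank_mul_le_left _ _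
  -- `F * (1 - XᵀX) = 0`
  have hFG : ∀ z : B → ℝ, F *ᵥ ((1 - Xᵀ * X) *ᵥ z) = 0 := by
    intro z
    set uu := (1 - Xᵀ * X) *ᵥ z with huu
    -- `D0 + s y uᵀ ∈ C`
    have hmem : ∀ (y : A → ℝ) (s : ℝ), D0 + s • Matrix.vecMulVec y uu ∈ C := by
      intro y s v hv hv0
      have h1 : uu ⬝ᵥ v = 0 := by
        have h2 := (mem_ker_iff hX v).mpr hv
        have h3 : ((1 - Xᵀ * X) *ᵥ z) ⬝ᵥ v = z ⬝ᵥ ((1 - Xᵀ * X) *ᵥ v) := by
          rw [dotProduct_comm, dotProduct_mulVec, ← mulVec_transpose, dotProduct_comm]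
          rw [transpose_sub, transpose_one, transpose_mul, transpose_transpose]
        rw [huu, h3, h2, dotProduct_zero]
      have h4 : Matrix.vecMulVec y uu *ᵥ v = 0 := by
        ext i
        have : (Matrix.vecMulVec y uu *ᵥ v) i = y i * (uu ⬝ᵥ v) := by
          unfold mulVec dotProduct
          rw [Finset.mul_sum]
          refine Finset.sum_congr rfl fun j _ => ?_
          show Matrix.vecMulVec y uu i j * v j = y i * (uu j * v j)
          rw [Matrix.vecMulVec_apply]; ring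
        rw [this, h1, mul_zero]; rfl
      rw [add_mulVec, smul_mulVec, h4, smul_zero, add_zero]
      exact hneg v hv hv0
    have hz : ∀ y : A → ℝ, f (Matrix.vecMulVec y uu) = 0 := by
      intro y
      by_contra hcon
      have h1 := hfC _ (hmem y (-f D0 / f (Matrix.vecMulVec y uu)))
      rw [map_add, map_smul, smul_eq_mul, div_mul_cancel₀ _ hcon] at h1
      linarith
    have h5 := hz (F *ᵥ uu)
    rw [hF] at h5
    have h6 : pr F (Matrix.vecMulVec (F *ᵥ uu) uu) = (F *ᵥ uu) ⬝ᵥ (F *ᵥ uu) := by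
      rw [← pair_vecMulVec]
      rfl
    rw [h6] at h5
    exact dotProduct_self_eq_zero.mp h5
  have h1 : LinearMap.range (1 - Xᵀ * X).mulVecLin ≤ LinearMap.ker F.mulVecLin := by
    rintro _ ⟨z, rfl⟩
    rw [LinearMap.mem_ker, Matrix.mulVecLin_apply, Matrix.mulVecLin_apply]
    exact hFG z
  have h2 := Submodule.finrank_mono h1
  have h3 := LinearMap.finrank_range_add_finrank_ker F.mulVecLin
  have h4 := LinearMap.finrank_range_add_finrank_ker (1 - Xᵀ * X).mulVecLin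
  have h5 : F.rank = Module.finrank ℝ (LinearMap.range F.mulVecLin) := rfl
  omega

lemma con_entry {X : Matrix A B ℝ} (hX : Con X) (i : A) (j : B) : X i j ∈ Set.Icc (-1 : ℝ) 1 := by
  have h1 := hX (Pi.single j 1)
  have h2 : (Pi.single j (1 : ℝ) : B → ℝ) ⬝ᵥ Pi.single j 1 = 1 := by simp
  have h3 : X *ᵥ (Pi.single j (1 : ℝ)) = fun i => X i j := by
    ext i; simp
  rw [h2, h3] at h1
  have h4 : X i j * X i j ≤ (fun i => X i j) ⬝ᵥ (fun i => X i j) := by
    unfold dotProduct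
    exact Finset.single_le_sum (f := fun i => X i j * X i j) (fun i _ => mul_self_nonneg _)
      (Finset.mem_univ i)
  have : |X i j| ≤ 1 := by
    rw [← sq_le_one_iff_abs_le_one]; nlinarith
  exact abs_le.mp this

lemma isClosed_con : IsClosed {X : Matrix A B ℝ | Con X} := by
  have : {X : Matrix A B ℝ | Con X}
      = ⋂ v : B → ℝ, {X | (X *ᵥ v) ⬝ᵥ (X *ᵥ v) ≤ v ⬝ᵥ v} := by
    ext X
    rw [Set.mem_iInter]
    rfl
  rw [this]
  refine isClosed_iInter fun v => ?_
  have c : Continuous fun X : Matrix A B ℝ => X *ᵥ v := continuous_id.matrix_mulVec continuous_const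
  exact isClosed_le (c.dotProduct c) continuous_const

lemma isCompact_con : IsCompact {X : Matrix A B ℝ | Con X} := by
  have h1 : IsCompact (Set.pi Set.univ fun _ : A => Set.pi Set.univ fun _ : B =>
      Set.Icc (-1 : ℝ) 1) :=
    isCompact_univ_pi fun _ => isCompact_univ_pi fun _ => isCompact_Icc
  exact h1.of_isClosed_subset isClosed_con fun X hX i _ j _ => con_entry hX i j

lemma isClosed_agree (H : A → B → Prop) (Z : Matrix A B ℝ) :
    IsClosed {p : ℝ × Matrix A B ℝ | ∀ i j, ¬ H i j → p.2 i j = p.1 * Z i j} := by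
  have : {p : ℝ × Matrix A B ℝ | ∀ i j, ¬ H i j → p.2 i j = p.1 * Z i j}
      = ⋂ i, ⋂ j, ⋂ (_ : ¬ H i j), {p | p.2 i j = p.1 * Z i j} := by
    ext p
    simp only [Set.mem_iInter]
    rfl
  rw [this]
  refine isClosed_iInter fun i => isClosed_iInter fun j => isClosed_iInter fun _ => ?_
  exact isClosed_eq (continuous_snd.matrix_elem i j) (continuous_fst.mul continuous_const)

/-- Approximate form, `t < 1`. -/
lemma P_approx (r : ℕ) (H : A → B → Prop) (w : Matrix A B ℝ)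
    (hw : ∀ M : Matrix A B ℝ, (∀ i j, H i j → M i j = w i j) → r < M.rank)
    {Z : Matrix A B ℝ} (hZ : Con Z) {t : ℝ} (ht0 : 0 ≤ t) (ht1 : t < 1) :
    ∃ X : Matrix A B ℝ, Con X ∧ (∀ i j, ¬ H i j → X i j = t * Z i j) ∧
      r < Module.finrank ℝ (LinearMap.ker (1 - Xᵀ * X).mulVecLin) := by
  classical
  let w' : Matrix A B ℝ := Matrix.of fun i j => if H i j then w i j else 0
  have hw'0 : ∀ i j, ¬ H i j → w' i j = 0 := fun i j h => if_neg h
  have hw' : ∀ M : Matrix A B ℝ, (∀ i j, H i j → M i j = w' i j) → r < M.rank :=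
    fun M hM => hw M fun i j h => (hM i j h).trans (if_pos h)
  let K : Set (Matrix A B ℝ) := {X | Con X} ∩ {X | ∀ i j, ¬ H i j → X i j = t * Z i j}
  have hK : IsCompact K := by
    refine isCompact_con.inter_right ?_
    exact (isClosed_agree H Z).preimage (continuous_const.prodMk continuous_id :
      Continuous fun X : Matrix A B ℝ => (t, X))
  have htZ : Con (t • Z) := by
    intro v
    rw [smul_mulVec, smul_dotProduct, dotProduct_smul, smul_eq_mul, smul_eq_mul, ← mul_assoc]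
    have h1 := hZ v
    have h2 : 0 ≤ (Z *ᵥ v) ⬝ᵥ (Z *ᵥ v) := dot_self_nonneg _
    have h3 : t * t ≤ 1 := by nlinarith
    nlinarith
  have hne : K.Nonempty := ⟨t • Z, htZ, fun i j _ => rfl⟩
  obtain ⟨X, ⟨hX, hXa⟩, hXm⟩ := hK.exists_isMaxOn hne (pr_cont w').continuousOn
  refine ⟨X, hX, hXa, ?_⟩
  refine core r H w' hw'0 hw' hX ?_ (D0 := t • Z - X) ?_ ?_
  · intro Y hY hYa
    exact hXm ⟨hY, fun i j h => (hYa i j h).trans (hXa i j h)⟩
  · intro i j h
    rw [Matrix.sub_apply, hXa i j h, Matrix.smul_apply, smul_eq_mul, sub_self]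
  · intro v hv hv0
    rw [sub_mulVec, dotProduct_sub, hv, smul_mulVec, dotProduct_smul, smul_eq_mul]
    have h1 := hZ v
    have h2 : (X *ᵥ v) ⬝ᵥ (Z *ᵥ v) ≤ v ⬝ᵥ v := by
      have h3 : 0 ≤ (X *ᵥ v - Z *ᵥ v) ⬝ᵥ (X *ᵥ v - Z *ᵥ v) := dot_self_nonneg _
      rw [sub_dotProduct, dotProduct_sub, dotProduct_sub, dotProduct_comm (Z *ᵥ v) (X *ᵥ v),
        hv] at h3
      linarith
    have h4 := dot_self_pos hv0
    nlinarith

/-- Orthonormal frame in a subspace of large dimension. -/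
lemma frame (r : ℕ) (N : Submodule ℝ (B → ℝ)) (h : r < Module.finrank ℝ N) :
    ∃ V : Fin (r + 1) → B → ℝ, (∀ i j, V i ⬝ᵥ V j = if i = j then 1 else 0) ∧ ∀ i, V i ∈ N := by
  let e := WithLp.linearEquiv 2 ℝ (B → ℝ)
  let N' : Submodule ℝ (EuclideanSpace ℝ B) := N.comap e.toLinearMap
  have h1 : Module.finrank ℝ N' = Module.finrank ℝ N := (e.ofSubmodule' N).finrank_eq
  let b := stdOrthonormalBasis ℝ N'
  have hle : r + 1 ≤ Module.finrank ℝ N' := by omega
  refine ⟨fun i => WithLp.ofLp (b (Fin.castLE hle i) : EuclideanSpace ℝ B), ?_, ?_⟩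
  · intro i j
    have h2 := (orthonormal_iff_ite.mp b.orthonormal) (Fin.castLE hle j) (Fin.castLE hle i)
    rw [Submodule.coe_inner, EuclideanSpace.inner_eq_star_dotProduct, star_trivial] at h2
    rw [h2]
    by_cases hij : i = j
    · subst hij; simp
    · rw [if_neg hij, if_neg]
      intro h3
      exact hij (Fin.castLE_injective hle h3).symm
  · intro i
    exact (b (Fin.castLE hle i)).2

/-- **Theorem P.** If `w` on `H` has no completion of rank at most `r`, then every contraction can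
be changed on `H` to a contraction with at least `r + 1` orthonormal isometric directions. -/
theorem P_block (r : ℕ) (H : A → B → Prop) (w Z : Matrix A B ℝ)
    (hw : ∀ M : Matrix A B ℝ, (∀ i j, H i j → M i j = w i j) → r < M.rank)
    (hZ : ∀ v : B → ℝ, (Z *ᵥ v) ⬝ᵥ (Z *ᵥ v) ≤ v ⬝ᵥ v) :
    ∃ X : Matrix A B ℝ, (∀ v : B → ℝ, (X *ᵥ v) ⬝ᵥ (X *ᵥ v) ≤ v ⬝ᵥ v) ∧
      (∀ i j, ¬ H i j → X i j = Z i j) ∧
      ∃ V : Fin (r + 1) → B → ℝ, (∀ i j, V i ⬝ᵥ V j = if i = j then 1 else 0) ∧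
        ∀ i, (X *ᵥ V i) ⬝ᵥ (X *ᵥ V i) = 1 := by
  let P : Set (ℝ × Matrix A B ℝ × (Fin (r + 1) → B → ℝ)) :=
    {p | p.1 ∈ Set.Icc (0 : ℝ) 1 ∧ Con p.2.1 ∧ (∀ i j, ¬ H i j → p.2.1 i j = p.1 * Z i j) ∧
      (∀ i j, p.2.2 i ⬝ᵥ p.2.2 j = if i = j then 1 else 0) ∧
        ∀ i, (p.2.1 *ᵥ p.2.2 i) ⬝ᵥ (p.2.1 *ᵥ p.2.2 i) = 1}
  have hPc : IsClosed P := by
    have c1 : Continuous fun p : ℝ × Matrix A B ℝ × (Fin (r + 1) → B → ℝ) => p.2.1 :=
      continuous_fst.comp continuous_snd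
    have c2 : ∀ i, Continuous fun p : ℝ × Matrix A B ℝ × (Fin (r + 1) → B → ℝ) => p.2.2 i :=
      fun i => (continuous_apply i).comp (continuous_snd.comp continuous_snd)
    have e1 : P = ({p | p.1 ∈ Set.Icc (0 : ℝ) 1} ∩ {p | Con p.2.1} ∩
        {p | ∀ i j, ¬ H i j → p.2.1 i j = p.1 * Z i j} ∩
        (⋂ i, ⋂ j, {p | p.2.2 i ⬝ᵥ p.2.2 j = if i = j then 1 else 0}) ∩
        ⋂ i, {p | (p.2.1 *ᵥ p.2.2 i) ⬝ᵥ (p.2.1 *ᵥ p.2.2 i) = 1}) := by
      ext p
      simp only [Set.mem_inter_iff, Set.mem_iInter]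
      constructor
      · rintro ⟨h1, h2, h3, h4, h5⟩
        exact ⟨⟨⟨⟨h1, h2⟩, h3⟩, h4⟩, h5⟩
      · rintro ⟨⟨⟨⟨h1, h2⟩, h3⟩, h4⟩, h5⟩
        exact ⟨h1, h2, h3, h4, h5⟩
    rw [e1]
    refine ((((isClosed_Icc.preimage continuous_fst).inter (isClosed_con.preimage c1)).inter
      ((isClosed_agree H Z).preimage (continuous_fst.prodMk c1))).inter ?_).inter ?_
    · refine isClosed_iInter fun i => isClosed_iInter fun j => ?_
      exact isClosed_eq ((c2 i).dotProduct (c2 j)) continuous_const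
    · refine isClosed_iInter fun i => ?_
      exact isClosed_eq ((c1.matrix_mulVec (c2 i)).dotProduct (c1.matrix_mulVec (c2 i)))
        continuous_const
  have hPk : IsCompact P := by
    have h1 : IsCompact (Set.Icc (0 : ℝ) 1 ×ˢ ({X : Matrix A B ℝ | Con X} ×ˢ
        (Set.pi Set.univ fun _ : Fin (r + 1) => {v : B → ℝ | v ⬝ᵥ v = 1}))) :=
      isCompact_Icc.prod (isCompact_con.prod (isCompact_univ_pi fun _ => isCompact_sphere))
    refine h1.of_isClosed_subset hPc ?_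
    rintro ⟨t, X, V⟩ ⟨h1, h2, h3, h4, h5⟩
    refine ⟨h1, h2, fun i _ => ?_⟩
    have := h4 i i
    rw [if_pos rfl] at this
    exact this
  have himg : IsClosed (Prod.fst '' P) := (hPk.image continuous_fst).isClosed
  have hsub : Set.Ico (0 : ℝ) 1 ⊆ Prod.fst '' P := by
    rintro t ⟨ht0, ht1⟩
    obtain ⟨X, hX, hXa, hXr⟩ := P_approx r H w hw hZ ht0 ht1
    obtain ⟨V, hV, hVN⟩ := frame r _ hXr
    refine ⟨(t, X, V), ⟨⟨ht0, ht1.le⟩, hX, hXa, hV, fun i => ?_⟩, rfl⟩
    have h1 := (mem_ker_iff hX (V i)).mp (by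
      have := hVN i
      rwa [LinearMap.mem_ker, Matrix.mulVecLin_apply] at this)
    show (X *ᵥ V i) ⬝ᵥ (X *ᵥ V i) = 1
    rw [h1, hV i i, if_pos rfl]
  have h1 : (1 : ℝ) ∈ Prod.fst '' P := by
    have h2 := closure_mono hsub
    rw [himg.closure_eq, closure_Ico (by norm_num : (0 : ℝ) ≠ 1)] at h2
    exact h2 ⟨zero_le_one, le_rfl⟩
  obtain ⟨⟨t, X, V⟩, ⟨h1, h2, h3, h4, h5⟩, ht⟩ := h1
  have ht' : t = 1 := ht
  subst ht'
  refine ⟨X, h2, fun i j h => ?_, V, h4, h5⟩
  have := h3 i j h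
  simpa using this

end CVXP
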